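import Pool.Agent.W553.PM.Stm

/-! Project PM, parts SMALL and CONTACT. -/

set_option autoImplicit false

namespace Pool.Agent.W191.PM.Contact

open Set Filter Topology Pool.Agent.W553.PM

theorem T_small : S_small := by
  intro M d H O hO δ hδ
  have h1 : Metric.ball O δ ∈ nhdsWithin O M :=
    nhdsWithin_le_nhds (Metric.ball_mem_nhds O hδ)
  obtain ⟨r, hr, hr2⟩ := (H.basis O hO).mem_iff.1 h1
  have h2 := H.tendsto hO
  rw [Metric.tendsto_nhds] at h2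
  have h3 := h2 (r / 2) (by positivity)
  rw [eventually_nhdsWithin_iff, Metric.eventually_nhds_iff] at h3
  obtain ⟨ρ1, hρ1, h4⟩ := h3
  refine ⟨min ρ1 (r / 4), by positivity, fun X hX hXO Z hZ hXZ => ?_⟩
  have h5 := h4 (hXO.trans_le (min_le_left _ _)) hX
  rw [Real.dist_eq, sub_zero, abs_of_nonneg (H.nonneg hO hX)] at h5
  have h6 : d X Z ≤ r / 4 := hXZ.trans (min_le_right _ _)
  have h7 := H.tri O hO X hX Z hZ
  exact Metric.mem_ball.1 (hr2 ⟨hZ, by linarith⟩)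

theorem ip_add (u v w : P) : ip u (v + w) = ip u v + ip u w := by
  simp only [ip, Prod.fst_add, Prod.snd_add]; ring

theorem ip_sub (u v w : P) : ip u (v - w) = ip u v - ip u w := by
  simp only [ip, Prod.fst_sub, Prod.snd_sub]; ring

theorem ip_smul (u : P) (s : ℝ) (v : P) : ip u (s • v) = s * ip u v := by
  simp only [ip, Prod.smul_fst, Prod.smul_snd, smul_eq_mul]; ring

theorem ip_ee_ee (φ : ℝ) : ip (ee φ) (ee φ) = 1 := by
  simp only [ip, ee]
  nlinarith [Real.sin_sq_add_cos_sq φ]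

theorem ip_ee_ww (φ : ℝ) : ip (ee φ) (ww φ) = 0 := by
  simp only [ip, ee, ww]; ring

theorem ww_ne (φ : ℝ) : ww φ ≠ 0 := by
  intro h
  have h1 : (ww φ).1 = 0 := by rw [h]; rfl
  have h2 : (ww φ).2 = 0 := by rw [h]; rfl
  simp only [ww] at h1 h2
  have := Real.sin_sq_add_cos_sq φ
  nlinarith

theorem continuous_ip_ee (Z : P) : Continuous fun φ => ip (ee φ) Z := by
  unfold ip ee
  fun_prop

theorem continuous_ip (u : P) : Continuous fun Z => ip u Z := by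
  unfold ip
  fun_prop

theorem eq_ww {φ : ℝ} {Y Z : P} (h : ip (ee φ) Z = ip (ee φ) Y) :
    Z = Y + ip (ww φ) (Z - Y) • ww φ := by
  have hs := Real.sin_sq_add_cos_sq φ
  have h' : Real.cos φ * (Z.1 - Y.1) + Real.sin φ * (Z.2 - Y.2) = 0 := by
    simp only [ip, ee] at h
    linarith
  ext
  · simp only [ip, ww, Prod.fst_add, Prod.smul_fst, smul_eq_mul, Prod.fst_sub, Prod.snd_sub]
    linear_combination (Real.cos φ) * h' - (Z.1 - Y.1) * hs
  · simp only [ip, ww, Prod.snd_add, Prod.smul_snd, smul_eq_mul, Prod.fst_sub, Prod.snd_sub]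
    linear_combination (Real.sin φ) * h' - (Z.2 - Y.2) * hs

/-- if `dt (ww φ) v = 1` then `v = - (ee φ - ip (ww φ) v • ww φ)` -/
theorem v_eq {φ : ℝ} {v : P} (h : dt (ww φ) v = 1) :
    v = -(ee φ + (-ip (ww φ) v) • ww φ) := by
  have hs := Real.sin_sq_add_cos_sq φ
  have h' : Real.sin φ * v.2 + Real.cos φ * v.1 = -1 := by
    simp only [dt, ww] at h
    linarith
  ext
  · simp only [ip, ww, ee, Prod.fst_neg, Prod.fst_add, Prod.smul_fst, smul_eq_mul]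
    linear_combination (Real.cos φ) * h' - v.1 * hs
  · simp only [ip, ww, ee, Prod.snd_neg, Prod.snd_add, Prod.smul_snd, smul_eq_mul]
    linear_combination (Real.sin φ) * h' - v.2 * hs

theorem cont_joint : Continuous fun p : ℝ × P => ip (ee p.1) p.2 := by
  unfold ip ee
  fun_prop

theorem tend_joint {U : Filter ℝ} {φ0 : ℝ} (hU : U ≤ 𝓝 φ0) {Y : ℝ → P} {x : P}
    (hUx : Tendsto Y U (𝓝 x)) : Tendsto (fun φ => ip (ee φ) (Y φ)) U (𝓝 (ip (ee φ0) x)) := by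
  have h5 : Tendsto (fun φ : ℝ => (φ, Y φ)) U (𝓝 (φ0, x)) := by
    rw [nhds_prod_eq]
    exact (tendsto_id'.2 hU).prodMk hUx
  have h6 := (cont_joint.tendsto (φ0, x)).comp h5
  exact h6

theorem cont_of_uniq {Bl : Set P} (hBc : IsCompact Bl) {Y : ℝ → P} (hYB : ∀ φ, Y φ ∈ Bl)
    (hYm : ∀ φ, ∀ Z ∈ Bl, ip (ee φ) Z ≤ ip (ee φ) (Y φ))
    (huniq : ∀ φ, ∀ Z ∈ Bl, ip (ee φ) Z = ip (ee φ) (Y φ) → Z = Y φ) : Continuous Y := by
  rw [continuous_iff_continuousAt]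
  intro φ0
  apply hBc.tendsto_nhds_of_unique_mapClusterPt (Eventually.of_forall hYB)
  intro x hx hcl
  rw [mapClusterPt_iff_ultrafilter] at hcl
  obtain ⟨U, hU, hUx⟩ := hcl
  apply huniq φ0 x hx
  apply le_antisymm (hYm φ0 x hx)
  have e1 : Tendsto (fun φ => ip (ee φ) (Y φ0)) (U : Filter ℝ) (𝓝 (ip (ee φ0) (Y φ0))) :=
    ((continuous_ip_ee (Y φ0)).tendsto φ0).mono_left hU
  have e2 : Tendsto (fun φ => ip (ee φ) (Y φ)) (U : Filter ℝ) (𝓝 (ip (ee φ0) x)) :=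
    tend_joint hU hUx
  exact le_of_tendsto_of_tendsto' e1 e2 fun φ => hYm φ _ (hYB φ0)

theorem T_contact : S_contact := by
  intro M d n H hn _ O hO δ hδ
  obtain ⟨δ1, hδ1, hb1⟩ := Metric.isOpen_iff.1 H.opn O hO
  set δ' := min δ (δ1 / 2) with hδ'
  have hδ'0 : 0 < δ' := by positivity
  have hcb : Metric.closedBall O δ' ⊆ M := by
    refine Subset.trans ?_ hb1
    apply Metric.closedBall_subset_ball
    have : δ' ≤ δ1 / 2 := min_le_right _ _
    linarith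
  obtain ⟨ρ, hρ, hsm⟩ := T_small M d H O hO δ' hδ'0
  refine ⟨ρ, hρ, fun X hX hXO r hr hrρ => ?_⟩
  set Bl : Set P := {Z | Z ∈ M ∧ d X Z ≤ r} with hBl
  have hBd : ∀ Z ∈ Bl, dist Z O < δ' := fun Z hZ => hsm X hX hXO Z hZ.1 (hZ.2.trans hrρ.le)
  have hBeq : Bl = Metric.closedBall O δ' ∩ (fun Z => d X Z) ⁻¹' Iic r := by
    ext Z
    constructor
    · intro hZ
      exact ⟨(hBd Z hZ).le, hZ.2⟩
    · intro hZ
      exact ⟨hcb hZ.1, hZ.2⟩
  have hBc : IsCompact Bl := by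
    have hcl : IsClosed Bl := by
      rw [hBeq]
      exact ((H.cont_right hX).mono hcb).preimage_isClosed_of_isClosed Metric.isClosed_closedBall
        isClosed_Iic
    exact (isCompact_closedBall O δ').of_isClosed_subset hcl
      (fun Z hZ => (hBeq ▸ hZ : Z ∈ Metric.closedBall O δ' ∩ (fun Z => d X Z) ⁻¹' Iic r).1)
  have hXB : X ∈ Bl := ⟨hX, by rw [H.self hX]; exact hr.le⟩
  have hex : ∀ φ : ℝ, ∃ Y ∈ Bl, ∀ Z ∈ Bl, ip (ee φ) Z ≤ ip (ee φ) Y := by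
    intro φ
    obtain ⟨Y, hY, hm⟩ := hBc.exists_isMaxOn ⟨X, hXB⟩ (continuous_ip (ee φ)).continuousOn
    exact ⟨Y, hY, fun Z hZ => hm hZ⟩
  choose Y hYB hYm using hex
  -- strictness
  have hlt : ∀ φ, ∀ Z ∈ M, d X Z < r → ip (ee φ) Z < ip (ee φ) (Y φ) := by
    intro φ Z hZ hd
    have h1 : ∀ᶠ W in 𝓝 Z, W ∈ M ∧ d X W < r := by
      have h2 := (H.cont_right hX).continuousAt (H.opn.mem_nhds hZ)
      filter_upwards [H.opn.mem_nhds hZ, h2.eventually (gt_mem_nhds hd)] with W hW1 hW2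
      exact ⟨hW1, hW2⟩
    have h3 : Tendsto (fun s : ℝ => Z + s • ee φ) (𝓝[>] 0) (𝓝 Z) := by
      have : Tendsto (fun s : ℝ => Z + s • ee φ) (𝓝 0) (𝓝 (Z + (0 : ℝ) • ee φ)) :=
        (Continuous.tendsto (by fun_prop) 0)
      rw [zero_smul, add_zero] at this
      exact this.mono_left nhdsWithin_le_nhds
    obtain ⟨s, hs1, hs2⟩ := ((h3.eventually h1).and self_mem_nhdsWithin).exists
    have h4 := hYm φ _ ⟨hs1.1, hs1.2.le⟩
    rw [ip_add, ip_smul, ip_ee_ee] at h4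
    have : 0 < s := hs2
    linarith
  have hdst : ∀ φ, d X (Y φ) = r := by
    intro φ
    by_contra hne
    exact lt_irrefl _ (hlt φ (Y φ) (hYB φ).1 (lt_of_le_of_ne (hYB φ).2 hne))
  have hX3 : ∀ φ, ∃ l : ℝ, X = Y φ + l • n (Y φ) (ww φ) := by
    intro φ
    apply hn.n3 (Y φ) (hYB φ).1 (ww φ) (ww_ne φ) X hX
    intro t ht
    rw [hdst φ]
    by_contra hcon
    push Not at hcon
    have h1 := hlt φ _ ht hcon
    rw [ip_add, ip_smul, ip_ee_ww] at h1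
    linarith
  have huniq : ∀ φ, ∀ Z ∈ M, d X Z ≤ r → ip (ee φ) Z = ip (ee φ) (Y φ) → Z = Y φ := by
    intro φ Z hZ hd he
    have h1 := eq_ww he
    by_contra hne
    obtain ⟨l, hl⟩ := hX3 φ
    have ht : ip (ww φ) (Z - Y φ) ≠ 0 := by
      intro h0
      rw [h0, zero_smul, add_zero] at h1
      exact hne h1
    have h2 := hn.n2 (Y φ) (hYB φ).1 (ww φ) (ww_ne φ) l _ ht (hl ▸ hX) (h1 ▸ hZ)
    rw [← hl, ← h1, hdst φ] at h2
    linarith
  refine ⟨Y, ⟨?_, fun φ => (hYB φ).1, hdst, fun φ Z hZ hd => hYm φ Z ⟨hZ, hd⟩, huniq, ?_, ?_⟩,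
    fun φ => (hBd _ (hYB φ)).trans_le (min_le_left _ _)⟩
  · exact cont_of_uniq hBc hYB hYm fun φ Z hZ h => huniq φ Z hZ.1 hZ.2 h
  · intro φ
    rw [ip_sub]
    have := hlt φ X hX (by rw [H.self hX]; exact hr)
    linarith
  · intro φ
    obtain ⟨l, hl⟩ := hX3 φ
    have h1 := v_eq (hn.n1 (Y φ) (hYB φ).1 (ww φ) (ww_ne φ))
    have h2 : Y φ - X = l • aa n (Y φ) φ := by
      have h3 : n (Y φ) (ww φ) = -aa n (Y φ) φ := h1
      rw [h3] at hl
      nth_rewrite 1 [hl]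
      rw [smul_neg]
      abel
    have h3 : ip (ee φ) (Y φ - X) = l := by
      rw [h2, ip_smul]
      unfold aa
      rw [ip_add, ip_smul, ip_ee_ee, ip_ee_ww]
      ring
    rw [h3]
    exact h2

end Pool.Agent.W191.PM.Contact
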